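import Mathlib
import Pool.Agent.R274.OctaMain

namespace Pool.Agent.Results.MP_814c9d_an.OctahedralWithoutL1

open Cardinal Pool.Agent.R274.Octa

universe u

/-- For every infinite cardinal `κ` there is a `κ`-octahedral Banach space which contains no
isomorphic copy of the absolutely summable families on any uncountable set. -/
theorem result (κ : Cardinal.{u}) (hκ : ℵ₀ ≤ κ) :
    ∃ (X : Type u) (_ : NormedAddCommGroup X) (_ : NormedSpace ℝ X) (_ : CompleteSpace X),
      KOctahedral κ X ∧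
      ∀ Γ : Type u, Uncountable Γ →
        ¬ ∃ (T : lp (fun _ : Γ => ℝ) 1 →L[ℝ] X) (c : ℝ), 0 < c ∧ ∀ v, c * ‖v‖ ≤ ‖T v‖ := by
  obtain ⟨Γ, _, hΓ⟩ := exists_order κ hκ
  refine ⟨UniformSpace.Completion (W Γ), inferInstance, inferInstance, inferInstance,
    koct hκ hΓ, ?_⟩
  rintro Γ' hΓ' ⟨T, c, hc, hT⟩
  exact no_l1 hΓ' T hc hT

end Pool.Agent.Results.MP_814c9d_an.OctahedralWithoutL1
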